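import Mathlib

/-!
# Parity of the exclude multiplicities of plateaued APN functions

For every `n ≥ 3` and every plateaued APN function `F : 𝔽₂ⁿ → 𝔽₂ⁿ`, every point outside the
graph of `F` is the sum of an odd number of three-element subsets of the graph.
-/

namespace Pool.Agent.Results.MP_b298ef_co.OddExclude

open Finset

/-- The vector space `𝔽₂ⁿ`. -/
abbrev V (n : ℕ) := Fin n → ZMod 2

/-- `F` is APN: for every `a ≠ 0` and every `b` the equation `F x + F (x + a) = b` has exactly
`0` or exactly `2` solutions `x`. -/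
def IsAPN {n : ℕ} (F : V n → V n) : Prop :=
  ∀ a : V n, a ≠ 0 → ∀ b : V n,
    (univ.filter fun x : V n => F x + F (x + a) = b).card = 0 ∨
    (univ.filter fun x : V n => F x + F (x + a) = b).card = 2

/-- The Walsh transform `W_F(u,v) = ∑ₓ (-1)^(v·F(x) + u·x)`. -/
noncomputable def walsh {n : ℕ} (F : V n → V n) (u v : V n) : ℝ :=
  ∑ x : V n, (-1 : ℝ) ^ (v ⬝ᵥ F x + u ⬝ᵥ x).val

/-- `F` is plateaued: for every `v ≠ 0` there is a real `l ≥ 0` such that
`W_F(u,v) ∈ {0, l, -l}` for all `u`. -/
def IsPlateaued {n : ℕ} (F : V n → V n) : Prop :=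
  ∀ v : V n, v ≠ 0 → ∃ l : ℝ, 0 ≤ l ∧ ∀ u : V n, walsh F u v = 0 ∨ walsh F u v = l ∨ walsh F u v = -l

/-- The graph `{(x, F x)}` of `F`, a subset of `𝔽₂ⁿ × 𝔽₂ⁿ`. -/
def graph {n : ℕ} (F : V n → V n) : Finset (V n × V n) :=
  univ.image fun x : V n => (x, F x)

/-- The exclude multiplicity of `p`: the number of three-element subsets of the graph of `F`
whose elements sum to `p`. -/
def excludeMult {n : ℕ} (F : V n → V n) (p : V n × V n) : ℕ :=
  (((graph F).powersetCard 3).filter fun s => ∑ q ∈ s, q = p).card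

/-! ### The sign character -/

/-- the sign character of `ZMod 2`, integer valued -/
def chi (a : ZMod 2) : ℤ := (-1) ^ a.val

lemma chi_zero : chi 0 = 1 := rfl

lemma chi_one : chi 1 = -1 := rfl

lemma zmod2_cases (a : ZMod 2) : a = 0 ∨ a = 1 := by
  revert a; decide

lemma chi_add (a b : ZMod 2) : chi (a + b) = chi a * chi b := by
  revert a b; decide

lemma chi_sq (a : ZMod 2) : chi a * chi a = 1 := by
  revert a; decide

lemma chi_eq_ite (a : ZMod 2) : chi a = 1 - 2 * (if a = 1 then 1 else 0) := by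
  revert a; decide

lemma add_self_V {n : ℕ} (x : V n) : x + x = 0 := by
  funext i; simp [CharTwo.add_self_eq_zero]

lemma sum_chi_dot {n : ℕ} (c : V n) :
    ∑ v : V n, chi (v ⬝ᵥ c) = if c = 0 then (2 : ℤ) ^ n else 0 := by
  have h1 : ∀ v : V n, chi (v ⬝ᵥ c) = ∏ i, chi (v i * c i) := by
    intro v
    unfold dotProduct
    have : ∀ s : Finset (Fin n), chi (∑ i ∈ s, v i * c i) = ∏ i ∈ s, chi (v i * c i) := by
      intro s
      induction s using Finset.induction_on with
      | empty => simp [chi_zero]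
      | insert a s ha ih => rw [sum_insert ha, prod_insert ha, chi_add, ih]
    exact this univ
  have h2 : ∑ v : V n, chi (v ⬝ᵥ c) = ∏ i, ∑ t : ZMod 2, chi (t * c i) := by
    rw [prod_univ_sum]
    simp only [Fintype.piFinset_univ]
    exact sum_congr rfl fun v _ => h1 v
  rw [h2]
  have h3 : ∀ i, ∑ t : ZMod 2, chi (t * c i) = if c i = 0 then 2 else 0 := by
    intro i
    generalize c i = d
    revert d; decide
  simp only [h3]
  split_ifs with hc
  · subst hc; simp
  · obtain ⟨i, hi⟩ : ∃ i, c i ≠ 0 := by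
      by_contra hcon
      push Not at hcon
      exact hc (funext hcon)
    exact prod_eq_zero (mem_univ i) (by simp [hi])

/-- integer valued Walsh transform -/
def W {n : ℕ} (F : V n → V n) (u v : V n) : ℤ := ∑ x : V n, chi (v ⬝ᵥ F x + u ⬝ᵥ x)

lemma walsh_eq {n : ℕ} (F : V n → V n) (u v : V n) : walsh F u v = (W F u v : ℝ) := by
  unfold walsh W chi
  push_cast
  rfl

lemma card_V (n : ℕ) : Fintype.card (V n) = 2 ^ n := by simp [ZMod.card]

/-- `∑_u χ(u·a) W(u,v) = 2^n χ(v·F a)`. -/
lemma sum_chi_W {n : ℕ} (F : V n → V n) (a v : V n) :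
    ∑ u : V n, chi (u ⬝ᵥ a) * W F u v = 2 ^ n * chi (v ⬝ᵥ F a) := by
  unfold W
  simp only [mul_sum]
  rw [sum_comm]
  have h : ∀ x : V n, ∑ u : V n, chi (u ⬝ᵥ a) * chi (v ⬝ᵥ F x + u ⬝ᵥ x)
      = chi (v ⬝ᵥ F x) * (if x = a then 2 ^ n else 0) := by
    intro x
    have : ∀ u : V n, chi (u ⬝ᵥ a) * chi (v ⬝ᵥ F x + u ⬝ᵥ x)
        = chi (v ⬝ᵥ F x) * chi (u ⬝ᵥ (a + x)) := by
      intro u
      rw [chi_add, dotProduct_add, chi_add]; ring
    rw [sum_congr rfl fun u _ => this u, ← mul_sum, sum_chi_dot]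
    congr 1
    have hiff : (a + x = 0) ↔ (x = a) := by
      constructor
      · intro h
        have : a + x + x = x := by rw [h, zero_add]
        rw [add_assoc, add_self_V, add_zero] at this
        exact this.symm
      · rintro rfl; exact add_self_V _
    simp only [hiff]
  rw [sum_congr rfl fun x _ => h x]
  simp [mul_comm]

/-- the sum over the pairs `x,y` of the character of `v` at `F x + F y + F (a+x+y)` -/
def S {n : ℕ} (F : V n → V n) (a v : V n) : ℤ :=
  ∑ x : V n, ∑ y : V n, chi (v ⬝ᵥ (F x + F y + F (a + x + y)))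

lemma sum_chi_W3 {n : ℕ} (F : V n → V n) (a v : V n) :
    ∑ u : V n, chi (u ⬝ᵥ a) * (W F u v) ^ 3 = 2 ^ n * S F a v := by
  have h1 : ∀ u : V n, chi (u ⬝ᵥ a) * (W F u v) ^ 3 =
      ∑ x : V n, ∑ y : V n, ∑ z : V n,
        chi (v ⬝ᵥ (F x + F y + F z)) * chi (u ⬝ᵥ (a + x + y + z)) := by
    intro u
    unfold W
    rw [pow_succ, pow_two, sum_mul_sum, sum_mul, mul_sum]
    refine sum_congr rfl fun x _ => ?_
    rw [sum_mul, mul_sum]
    refine sum_congr rfl fun y _ => ?_
    rw [mul_sum, mul_sum]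
    refine sum_congr rfl fun z _ => ?_
    simp only [dotProduct_add, chi_add]
    ring
  rw [sum_congr rfl fun u _ => h1 u]
  rw [sum_comm]
  unfold S
  rw [mul_sum]
  refine sum_congr rfl fun x _ => ?_
  rw [sum_comm, mul_sum]
  refine sum_congr rfl fun y _ => ?_
  rw [sum_comm]
  have h2 : ∀ z : V n, ∑ u : V n, chi (v ⬝ᵥ (F x + F y + F z)) * chi (u ⬝ᵥ (a + x + y + z))
      = if z = a + x + y then 2 ^ n * chi (v ⬝ᵥ (F x + F y + F (a + x + y))) else 0 := by
    intro z
    rw [← mul_sum, sum_chi_dot]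
    have hiff : (a + x + y + z = 0) ↔ (z = a + x + y) := by
      constructor
      · intro h
        have : a + x + y + z + z = z := by rw [h, zero_add]
        rw [add_assoc, add_self_V, add_zero] at this
        exact this.symm
      · rintro rfl; exact add_self_V _
    simp only [hiff]
    split_ifs with hz
    · subst hz; ring
    · simp
  rw [sum_congr rfl fun z _ => h2 z]
  simp

/-- Parseval. -/
lemma parseval {n : ℕ} (F : V n → V n) (v : V n) :
    ∑ u : V n, (W F u v) ^ 2 = 2 ^ (2 * n) := by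
  have h1 : ∀ u : V n, (W F u v) ^ 2 = ∑ x : V n, chi (v ⬝ᵥ F x) * (chi (u ⬝ᵥ x) * W F u v) := by
    intro u
    have h0 : (W F u v) ^ 2 = (∑ x : V n, chi (v ⬝ᵥ F x + u ⬝ᵥ x)) * W F u v := by
      rw [pow_two]; rfl
    rw [h0, sum_mul]
    refine sum_congr rfl fun x _ => ?_
    rw [chi_add]; ring
  rw [sum_congr rfl fun u _ => h1 u, sum_comm]
  have h2 : ∀ x : V n, ∑ u : V n, chi (v ⬝ᵥ F x) * (chi (u ⬝ᵥ x) * W F u v) = 2 ^ n := by
    intro x
    rw [← mul_sum, sum_chi_W]
    have := chi_sq (v ⬝ᵥ F x)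
    calc chi (v ⬝ᵥ F x) * (2 ^ n * chi (v ⬝ᵥ F x))
        = 2 ^ n * (chi (v ⬝ᵥ F x) * chi (v ⬝ᵥ F x)) := by ring
      _ = 2 ^ n := by rw [this, mul_one]
  rw [sum_congr rfl fun x _ => h2 x]
  simp only [sum_const, card_univ, card_V, nsmul_eq_mul]
  push_cast
  ring

/-- The structure of the Walsh values of one component of a plateaued function: the amplitude
is a power of two `2 ^ j` with `n ≤ 2 * j`, and if `n = 2 * j` the component is bent. -/
lemma plateau_struct {n : ℕ} {F : V n → V n} (hF : IsPlateaued F) {v : V n} (hv : v ≠ 0) :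
    ∃ j : ℕ, n ≤ 2 * j ∧ (∀ u, W F u v = 0 ∨ W F u v = 2 ^ j ∨ W F u v = -2 ^ j) ∧
      (2 * j = n → ∀ u, W F u v ≠ 0) := by
  obtain ⟨l, hl, hW⟩ := hF v hv
  have hpar := parseval F v
  obtain ⟨u0, hu0⟩ : ∃ u0, W F u0 v ≠ 0 := by
    by_contra hcon
    push Not at hcon
    rw [sum_eq_zero (fun u _ => by rw [hcon u]; rfl)] at hpar
    have : (0 : ℤ) < 2 ^ (2 * n) := by positivity
    omega
  set L : ℕ := (W F u0 v).natAbs with hL
  have hLl : (L : ℝ) = l := by
    have h0 := hW u0
    rw [walsh_eq] at h0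
    have hcast : (L : ℝ) = |(W F u0 v : ℝ)| := by
      rw [hL, Nat.cast_natAbs, Int.cast_abs]
    rcases h0 with h0 | h0 | h0
    · exact absurd (by exact_mod_cast h0) hu0
    · rw [hcast, h0, abs_of_nonneg hl]
    · rw [hcast, h0, abs_neg, abs_of_nonneg hl]
  have hvals : ∀ u, W F u v = 0 ∨ W F u v = (L : ℤ) ∨ W F u v = -(L : ℤ) := by
    intro u
    have h := hW u
    rw [walsh_eq, ← hLl] at h
    rcases h with h | h | h
    · left; exact_mod_cast h
    · right; left; exact_mod_cast h
    · right; right; exact_mod_cast h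
  have hsum : ((univ.filter fun u : V n => W F u v ≠ 0).card : ℤ) * (L : ℤ) ^ 2 = 2 ^ (2 * n) := by
    rw [← hpar]
    have h1 : ∀ u : V n, (W F u v) ^ 2 = if W F u v ≠ 0 then (L : ℤ) ^ 2 else 0 := by
      intro u
      split_ifs with h
      · rcases hvals u with h' | h' | h'
        · exact absurd h' h
        · rw [h']
        · rw [h']; ring
      · push Not at h; rw [h]; rfl
    rw [sum_congr rfl fun u _ => h1 u, ← sum_filter, sum_const, nsmul_eq_mul]
  have hsumN : (univ.filter fun u : V n => W F u v ≠ 0).card * L ^ 2 = 2 ^ (2 * n) := by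
    exact_mod_cast hsum
  have hdvd : L ∣ 2 ^ (2 * n) := by
    rw [← hsumN]
    exact Dvd.dvd.mul_left (dvd_pow_self L (by norm_num)) _
  obtain ⟨j, -, hj⟩ := (Nat.dvd_prime_pow Nat.prime_two).1 hdvd
  have hcard : (univ.filter fun u : V n => W F u v ≠ 0).card ≤ 2 ^ n := by
    calc _ ≤ (univ : Finset (V n)).card := card_filter_le _ _
      _ = 2 ^ n := by rw [card_univ, card_V]
  have hLsq : L ^ 2 = 2 ^ (2 * j) := by rw [hj, ← pow_mul, mul_comm]
  refine ⟨j, ?_, ?_, ?_⟩
  · by_contra hlt
    push Not at hlt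
    have h1 : 2 ^ (2 * n) ≤ 2 ^ n * 2 ^ (2 * j) := by
      rw [← hsumN, hLsq]; exact Nat.mul_le_mul_right _ hcard
    rw [← pow_add] at h1
    have h2 := (Nat.pow_le_pow_iff_right (by norm_num : 1 < 2)).1 h1
    omega
  · intro u
    have := hvals u
    rw [hj] at this
    push_cast at this
    exact this
  · intro hjn u hu
    have h1 : (univ.filter fun u : V n => W F u v ≠ 0).card * 2 ^ n = 2 ^ n * 2 ^ n := by
      rw [← pow_add, ← two_mul, ← hsumN, hLsq, hjn]
    have h2 : (univ.filter fun u : V n => W F u v ≠ 0).card = 2 ^ n :=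
      Nat.eq_of_mul_eq_mul_right (by positivity) h1
    have h3 : (univ.filter fun u : V n => W F u v ≠ 0) = univ := by
      rw [← card_eq_iff_eq_univ, h2, card_V]
    have h4 : u ∈ (univ.filter fun u : V n => W F u v ≠ 0) := by rw [h3]; exact mem_univ u
    exact (mem_filter.1 h4).2 hu

/-- For `v ≠ 0` with amplitude `2 ^ j`, `S F a v = 4 ^ j χ(v·F a)`. -/
lemma S_eq {n : ℕ} {F : V n → V n} {v : V n} {j : ℕ}
    (hj : ∀ u, W F u v = 0 ∨ W F u v = 2 ^ j ∨ W F u v = -2 ^ j) (a : V n) :
    S F a v = 4 ^ j * chi (v ⬝ᵥ F a) := by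
  have h1 : (2 : ℤ) ^ n * S F a v = 2 ^ n * (4 ^ j * chi (v ⬝ᵥ F a)) := by
    rw [← sum_chi_W3]
    have h2 : ∀ u : V n, chi (u ⬝ᵥ a) * (W F u v) ^ 3 = 4 ^ j * (chi (u ⬝ᵥ a) * W F u v) := by
      intro u
      have h4 : (4 : ℤ) ^ j = (2 ^ j) ^ 2 := by
        rw [← pow_mul, mul_comm, pow_mul]; norm_num
      rcases hj u with h | h | h
      · rw [h]; ring
      · rw [h, h4]; ring
      · rw [h, h4]; ring
    rw [sum_congr rfl fun u _ => h2 u, ← mul_sum, sum_chi_W]
    ring
  exact mul_left_cancel₀ (by positivity) h1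

lemma S_zero {n : ℕ} (F : V n → V n) (a : V n) : S F a 0 = 2 ^ n * 2 ^ n := by
  unfold S
  simp only [zero_dotProduct, chi_zero, sum_const, card_univ, card_V, nsmul_eq_mul]
  push_cast
  ring

/-- the number of pairs `(x,y)` with `F x + F y + F (a + x + y) = b` -/
def T {n : ℕ} (F : V n → V n) (a b : V n) : ℕ :=
  (univ.filter fun q : V n × V n => F q.1 + F q.2 + F (a + q.1 + q.2) = b).card

lemma T_eq {n : ℕ} (F : V n → V n) (a b : V n) :
    (2 : ℤ) ^ n * T F a b = ∑ v : V n, chi (v ⬝ᵥ b) * S F a v := by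
  have hR : ∑ v : V n, chi (v ⬝ᵥ b) * S F a v
      = ∑ x : V n, ∑ y : V n, ∑ v : V n,
          chi (v ⬝ᵥ b) * chi (v ⬝ᵥ (F x + F y + F (a + x + y))) := by
    unfold S
    simp only [mul_sum]
    rw [sum_comm]
    exact sum_congr rfl fun x _ => sum_comm
  rw [hR]
  unfold T
  rw [card_filter]
  push_cast
  rw [mul_sum, ← univ_product_univ, sum_product]
  refine sum_congr rfl fun x _ => sum_congr rfl fun y _ => ?_
  have h : ∀ v : V n, chi (v ⬝ᵥ b) * chi (v ⬝ᵥ (F x + F y + F (a + x + y)))
      = chi (v ⬝ᵥ (F x + F y + F (a + x + y) + b)) := by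
    intro v
    rw [dotProduct_add v _ b, chi_add, mul_comm]
  rw [sum_congr rfl fun v _ => h v, sum_chi_dot]
  have hiff : (F x + F y + F (a + x + y) + b = 0) ↔ (F x + F y + F (a + x + y) = b) := by
    constructor
    · intro h
      have : F x + F y + F (a + x + y) + b + b = b := by rw [h, zero_add]
      rw [add_assoc _ b b, add_self_V, add_zero] at this
      exact this
    · intro h; rw [h]; exact add_self_V b
  simp only [hiff, mul_ite, mul_one, mul_zero]

/-- If `F` is APN then `T F a (F a) = 3 * 2 ^ n - 2`. -/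
lemma T_graph {n : ℕ} {F : V n → V n} (hF : IsAPN F) (a : V n) :
    T F a (F a) + 2 = 3 * 2 ^ n := by
  have hT : T F a (F a) = ∑ x : V n,
      (univ.filter fun y : V n => F x + F y + F (a + x + y) = F a).card := by
    unfold T
    rw [card_filter, ← univ_product_univ, sum_product]
    refine sum_congr rfl fun x _ => ?_
    rw [card_filter]
  rw [hT, ← add_sum_erase univ _ (mem_univ a)]
  have h1 : (univ.filter fun y : V n => F a + F y + F (a + a + y) = F a) = univ := by
    rw [filter_eq_self]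
    intro y _
    rw [add_self_V a, zero_add, add_assoc, add_self_V, add_zero]
  have h2 : ∀ x ∈ univ.erase a,
      (univ.filter fun y : V n => F x + F y + F (a + x + y) = F a).card = 2 := by
    intro x hx
    have hxa : x ≠ a := (mem_erase.1 hx).1
    have hd : x + a ≠ 0 := by
      intro h
      apply hxa
      have : x + a + a = a := by rw [h, zero_add]
      rwa [add_assoc, add_self_V, add_zero] at this
    have hxd : x + (x + a) = a := by rw [← add_assoc, add_self_V, zero_add]
    have had : a + (x + a) = x := by rw [add_comm x a, ← add_assoc, add_self_V, zero_add]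
    have hset : (univ.filter fun y : V n => F x + F y + F (a + x + y) = F a) =
        (univ.filter fun y : V n => F y + F (y + (x + a)) = F x + F a) := by
      refine filter_congr fun y _ => ?_
      have harg : a + x + y = y + (x + a) := by abel
      rw [harg]
      constructor
      · intro h
        have h' : F x + (F x + F y + F (y + (x + a))) = F x + F a := by rw [h]
        rw [← h']
        have : F x + (F x + F y + F (y + (x + a))) = (F x + F x) + (F y + F (y + (x + a))) := by
          abel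
        rw [this, add_self_V, zero_add]
      · intro h
        rw [add_assoc, h, ← add_assoc, add_self_V, zero_add]
    rw [hset]
    rcases hF (x + a) hd (F x + F a) with h0 | h0
    · exfalso
      rw [card_eq_zero] at h0
      have : x ∈ (univ.filter fun y : V n => F y + F (y + (x + a)) = F x + F a) := by
        rw [mem_filter]
        exact ⟨mem_univ _, by rw [hxd]⟩
      rw [h0] at this
      exact absurd this (notMem_empty x)
    · exact h0
  rw [h1, sum_congr rfl h2, sum_const, card_erase_of_mem (mem_univ _), card_univ, card_V,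
    smul_eq_mul]
  have : 1 ≤ 2 ^ n := Nat.one_le_two_pow
  omega

section perms
variable {α : Type*} [DecidableEq α] (p q r : α)

lemma perm132 : ({p, r, q} : Finset α) = {p, q, r} := by rw [pair_comm]
lemma perm213 : ({q, p, r} : Finset α) = {p, q, r} := insert_comm q p {r}
lemma perm231 : ({q, r, p} : Finset α) = {p, q, r} := by rw [pair_comm r p, insert_comm q p]
lemma perm312 : ({r, p, q} : Finset α) = {p, q, r} := by rw [insert_comm r p, pair_comm r q]
lemma perm321 : ({r, q, p} : Finset α) = {p, q, r} := by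
  rw [pair_comm q p, insert_comm r p, pair_comm r q]

end perms

/-- Off the graph, `T F a b` is six times the exclude multiplicity. -/
lemma T_six {n : ℕ} (F : V n → V n) (a b : V n) (h : b ≠ F a) :
    T F a b = 6 * excludeMult F (a, b) := by
  classical
  unfold T excludeMult
  set φ : V n × V n → Finset (V n × V n) := fun q =>
    {(q.1, F q.1), (q.2, F q.2), (a + q.1 + q.2, F (a + q.1 + q.2))} with hφ
  set P : Finset (V n × V n) := univ.filter fun q : V n × V n =>
    F q.1 + F q.2 + F (a + q.1 + q.2) = b with hP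
  set E := ((graph F).powersetCard 3).filter fun s => ∑ q ∈ s, q = (a, b) with hE
  -- in `P` the three points are distinct
  have hdist : ∀ q ∈ P, q.1 ≠ q.2 ∧ q.1 ≠ a + q.1 + q.2 ∧ q.2 ≠ a + q.1 + q.2 := by
    rintro ⟨x, y⟩ hq
    rw [hP, mem_filter] at hq
    have hq' : F x + F y + F (a + x + y) = b := hq.2
    refine ⟨?_, ?_, ?_⟩
    · intro hxy
      have hxy' : x = y := hxy
      subst hxy'
      apply h
      rw [← hq', add_assoc a x x, add_self_V x, add_self_V (F x), add_zero, zero_add]
    · intro hxy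
      have hxy' : x = a + x + y := hxy
      have hya : y = a := by
        have h1 : x + x = x + (a + x + y) := by rw [← hxy']
        have h2 : x + (a + x + y) = (x + x) + (a + y) := by abel
        rw [h2, add_self_V, zero_add] at h1
        have h3 : a + (a + y) = a := by rw [← h1, add_zero]
        rwa [← add_assoc, add_self_V, zero_add] at h3
      apply h
      rw [← hq', ← hxy', add_comm (F x) (F y), add_assoc, add_self_V, add_zero, hya]
    · intro hxy
      have hxy' : y = a + x + y := hxy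
      have hxa : x = a := by
        have h1 : y + y = y + (a + x + y) := by rw [← hxy']
        have h2 : y + (a + x + y) = (y + y) + (a + x) := by abel
        rw [h2, add_self_V, zero_add] at h1
        have h3 : a + (a + x) = a := by rw [← h1, add_zero]
        rwa [← add_assoc, add_self_V, zero_add] at h3
      apply h
      rw [← hq', ← hxy', add_assoc, add_self_V, add_zero, hxa]
  have hmaps : ∀ q ∈ P, φ q ∈ E := by
    rintro ⟨x, y⟩ hq
    obtain ⟨d1, d2, d3⟩ := hdist _ hq
    rw [hP, mem_filter] at hq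
    have hq' : F x + F y + F (a + x + y) = b := hq.2
    simp only at d1 d2 d3
    have e1 : (x, F x) ≠ (y, F y) := fun he => d1 (congrArg Prod.fst he)
    have e2 : (x, F x) ≠ (a + x + y, F (a + x + y)) := fun he => d2 (congrArg Prod.fst he)
    have e3 : (y, F y) ≠ (a + x + y, F (a + x + y)) := fun he => d3 (congrArg Prod.fst he)
    rw [hE, mem_filter, mem_powersetCard]
    refine ⟨⟨?_, ?_⟩, ?_⟩
    · intro p hp
      simp only [hφ, mem_insert, mem_singleton] at hp
      rcases hp with rfl | rfl | rfl <;> exact mem_image_of_mem _ (mem_univ _)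
    · exact card_eq_three.2 ⟨_, _, _, e1, e2, e3, rfl⟩
    · have hnot1 : (x, F x) ∉ ({(y, F y), (a + x + y, F (a + x + y))} : Finset (V n × V n)) := by
        simp only [mem_insert, mem_singleton, not_or]
        exact ⟨e1, e2⟩
      have hnot2 : (y, F y) ∉ ({(a + x + y, F (a + x + y))} : Finset (V n × V n)) := by
        simp only [mem_singleton]
        exact e3
      simp only [hφ]
      rw [sum_insert hnot1, sum_insert hnot2, sum_singleton]
      refine Prod.ext ?_ ?_
      · show x + (y + (a + x + y)) = a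
        have : x + (y + (a + x + y)) = (x + x) + (y + y) + a := by abel
        rw [this, add_self_V, add_self_V, zero_add, zero_add]
      · show F x + (F y + F (a + x + y)) = b
        rw [← add_assoc]; exact hq'
  rw [card_eq_sum_card_fiberwise hmaps]
  have hfib : ∀ s ∈ E, (P.filter fun q => φ q = s).card = 6 := by
    intro s hs
    rw [hE, mem_filter, mem_powersetCard] at hs
    obtain ⟨⟨hsub, hcard⟩, hsum⟩ := hs
    obtain ⟨p1, p2, p3, h12, h13, h23, rfl⟩ := card_eq_three.1 hcard
    obtain ⟨x1, -, rfl⟩ := mem_image.1 (hsub (by simp : p1 ∈ _))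
    obtain ⟨x2, -, rfl⟩ := mem_image.1 (hsub (by simp : p2 ∈ _))
    obtain ⟨x3, -, rfl⟩ := mem_image.1 (hsub (by simp : p3 ∈ _))
    have n12 : x1 ≠ x2 := fun he => h12 (by rw [he])
    have n13 : x1 ≠ x3 := fun he => h13 (by rw [he])
    have n23 : x2 ≠ x3 := fun he => h23 (by rw [he])
    have hnot1 : (x1, F x1) ∉ ({(x2, F x2), (x3, F x3)} : Finset (V n × V n)) := by
      simp only [mem_insert, mem_singleton, not_or]
      exact ⟨h12, h13⟩
    have hnot2 : (x2, F x2) ∉ ({(x3, F x3)} : Finset (V n × V n)) := by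
      simp only [mem_singleton]
      exact h23
    rw [sum_insert hnot1, sum_insert hnot2, sum_singleton] at hsum
    have hs1 : x1 + (x2 + x3) = a := congrArg Prod.fst hsum
    have hs2 : F x1 + (F x2 + F x3) = b := congrArg Prod.snd hsum
    have a12 : a + x1 + x2 = x3 := by
      rw [← hs1]
      have : x1 + (x2 + x3) + x1 + x2 = (x1 + x1) + (x2 + x2) + x3 := by abel
      rw [this, add_self_V, add_self_V, zero_add, zero_add]
    have a21 : a + x2 + x1 = x3 := by rw [← a12]; abel
    have a13 : a + x1 + x3 = x2 := by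
      rw [← hs1]
      have : x1 + (x2 + x3) + x1 + x3 = (x1 + x1) + (x3 + x3) + x2 := by abel
      rw [this, add_self_V, add_self_V, zero_add, zero_add]
    have a31 : a + x3 + x1 = x2 := by rw [← a13]; abel
    have a23 : a + x2 + x3 = x1 := by
      rw [← hs1]
      have : x1 + (x2 + x3) + x2 + x3 = (x2 + x2) + (x3 + x3) + x1 := by abel
      rw [this, add_self_V, add_self_V, zero_add, zero_add]
    have a32 : a + x3 + x2 = x1 := by rw [← a23]; abel
    have hfibeq : (P.filter fun q => φ q = {(x1, F x1), (x2, F x2), (x3, F x3)}) =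
        ({x1, x2, x3} : Finset (V n)).offDiag := by
      ext ⟨x, y⟩
      rw [mem_filter, mem_offDiag]
      constructor
      · rintro ⟨hPq, hφq⟩
        obtain ⟨d1, -, -⟩ := hdist _ hPq
        have d1' : x ≠ y := d1
        have hx : (x, F x) ∈ ({(x1, F x1), (x2, F x2), (x3, F x3)} : Finset (V n × V n)) := by
          rw [← hφq, hφ]; simp
        have hy : (y, F y) ∈ ({(x1, F x1), (x2, F x2), (x3, F x3)} : Finset (V n × V n)) := by
          rw [← hφq, hφ]; simp
        simp only [mem_insert, mem_singleton] at hx hy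
        have hx' : x = x1 ∨ x = x2 ∨ x = x3 := by
          rcases hx with h | h | h
          · exact Or.inl (congrArg Prod.fst h)
          · exact Or.inr (Or.inl (congrArg Prod.fst h))
          · exact Or.inr (Or.inr (congrArg Prod.fst h))
        have hy' : y = x1 ∨ y = x2 ∨ y = x3 := by
          rcases hy with h | h | h
          · exact Or.inl (congrArg Prod.fst h)
          · exact Or.inr (Or.inl (congrArg Prod.fst h))
          · exact Or.inr (Or.inr (congrArg Prod.fst h))
        refine ⟨?_, ?_, d1'⟩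
        · simpa only [mem_insert, mem_singleton] using hx'
        · simpa only [mem_insert, mem_singleton] using hy'
      · rintro ⟨hx, hy, hxy⟩
        have hx' : x = x1 ∨ x = x2 ∨ x = x3 := by
          simpa only [mem_insert, mem_singleton] using hx
        have hy' : y = x1 ∨ y = x2 ∨ y = x3 := by
          simpa only [mem_insert, mem_singleton] using hy
        have hxy' : x ≠ y := hxy
        rw [hP, mem_filter]
        have hb1 : F x1 + F x2 + F x3 = b := by rw [← hs2, add_assoc]
        rcases hx' with rfl | rfl | rfl <;> rcases hy' with rfl | rfl | rfl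
        · exact absurd rfl hxy'
        · refine ⟨⟨mem_univ _, ?_⟩, ?_⟩
          · simp only [a12]; rw [← hb1]
          · simp only [hφ, a12]
        · refine ⟨⟨mem_univ _, ?_⟩, ?_⟩
          · simp only [a13]; rw [← hb1]; abel
          · simp only [hφ, a13]; exact perm132 _ _ _
        · refine ⟨⟨mem_univ _, ?_⟩, ?_⟩
          · simp only [a21]; rw [← hb1]; abel
          · simp only [hφ, a21]; exact perm213 _ _ _
        · exact absurd rfl hxy'
        · refine ⟨⟨mem_univ _, ?_⟩, ?_⟩
          · simp only [a23]; rw [← hb1]; abel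
          · simp only [hφ, a23]; exact perm231 _ _ _
        · refine ⟨⟨mem_univ _, ?_⟩, ?_⟩
          · simp only [a31]; rw [← hb1]; abel
          · simp only [hφ, a31]; exact perm312 _ _ _
        · refine ⟨⟨mem_univ _, ?_⟩, ?_⟩
          · simp only [a32]; rw [← hb1]; abel
          · simp only [hφ, a32]; exact perm321 _ _ _
        · exact absurd rfl hxy'
    rw [hfibeq, offDiag_card, card_eq_three.2 ⟨x1, x2, x3, n12, n13, n23, rfl⟩]
  rw [sum_congr rfl hfib, sum_const, smul_eq_mul, mul_comm]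

/-- Main theorem: for `n ≥ 3` and `F` plateaued APN on `𝔽₂ⁿ`, the exclude multiplicity of every
point outside the graph of `F` is odd. -/
theorem result : ∀ n : ℕ, 3 ≤ n → ∀ F : V n → V n, IsAPN F → IsPlateaued F →
    ∀ p : V n × V n, p ∉ graph F → Odd (excludeMult F p) := by
  intro n hn F hA hP p hp
  obtain ⟨a, b⟩ := p
  have hb : b ≠ F a := by
    intro h
    exact hp (mem_image.2 ⟨a, mem_univ a, by rw [h]⟩)
  have h6 := T_six F a b hb
  have h3 := T_graph hA a
  -- choose the exponents of the amplitudes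
  have hex : ∀ v : V n, ∃ j : ℕ, v ≠ 0 → (n ≤ 2 * j ∧
      (∀ u, W F u v = 0 ∨ W F u v = 2 ^ j ∨ W F u v = -2 ^ j) ∧
      (2 * j = n → ∀ u, W F u v ≠ 0)) := by
    intro v
    by_cases hv : v = 0
    · exact ⟨0, fun h => absurd hv h⟩
    · obtain ⟨j, hj⟩ := plateau_struct hP hv
      exact ⟨j, fun _ => hj⟩
  choose j hj using hex
  -- the number of pairs, in terms of the amplitudes
  have hT : ∀ b' : V n, (T F a b' : ℤ) = 2 ^ n +
      ∑ v ∈ univ.erase (0 : V n), 2 ^ (2 * j v - n) * chi (v ⬝ᵥ (b' + F a)) := by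
    intro b'
    have h1 := T_eq F a b'
    rw [← add_sum_erase univ _ (mem_univ (0 : V n))] at h1
    rw [S_zero, zero_dotProduct, chi_zero, one_mul] at h1
    have h2 : ∑ v ∈ univ.erase (0 : V n), chi (v ⬝ᵥ b') * S F a v
        = 2 ^ n * ∑ v ∈ univ.erase (0 : V n), 2 ^ (2 * j v - n) * chi (v ⬝ᵥ (b' + F a)) := by
      rw [mul_sum]
      refine sum_congr rfl fun v hv => ?_
      have hv0 : v ≠ 0 := (mem_erase.1 hv).1
      obtain ⟨hn', hW, -⟩ := hj v hv0
      rw [S_eq hW a, dotProduct_add, chi_add]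
      have h4 : (4 : ℤ) ^ (j v) = 2 ^ n * 2 ^ (2 * j v - n) := by
        rw [← pow_add, Nat.add_sub_cancel' hn', pow_mul]; norm_num
      rw [h4]; ring
    rw [h2, ← mul_add] at h1
    exact mul_left_cancel₀ (by positivity) h1
  have hTb := hT b
  have hTa := hT (F a)
  have hc : b + F a ≠ 0 := by
    intro h
    apply hb
    have : b + F a + F a = F a := by rw [h, zero_add]
    rwa [add_assoc, add_self_V, add_zero] at this
  set c : V n := b + F a with hcdef
  have hchi0 : ∀ v : V n, chi (v ⬝ᵥ (F a + F a)) = 1 := by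
    intro v; rw [add_self_V, dotProduct_zero, chi_zero]
  simp only [hchi0, mul_one] at hTa
  have hsumchi : ∑ v ∈ univ.erase (0 : V n), chi (v ⬝ᵥ c) = -1 := by
    have := sum_chi_dot c
    rw [if_neg hc, ← add_sum_erase univ _ (mem_univ (0 : V n)), zero_dotProduct, chi_zero] at this
    linarith
  -- it is enough that the number of pairs is 2 mod 4
  suffices hmod : (T F a b : ℤ) % 4 = 2 by
    rw [h6] at hmod
    push_cast at hmod
    rw [Nat.odd_iff]
    omega
  have h3' : (T F a (F a) : ℤ) = 3 * 2 ^ n - 2 := by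
    have : (T F a (F a) : ℤ) + 2 = 3 * 2 ^ n := by exact_mod_cast h3
    linarith
  rcases Nat.even_or_odd n with heven | hodd
  · -- even case
    obtain ⟨k, hk⟩ := heven
    have hk2 : 2 ≤ k := by omega
    -- `bb v` is the indicator of the bent components
    set bb : V n → ℤ := fun v => if j v = k then 1 else 0 with hbb
    have hq : ∀ v : V n, ∃ q : ℤ, v ≠ 0 → (2 : ℤ) ^ (2 * j v - n) = bb v + 4 * q := by
      intro v
      by_cases hv0 : v = 0
      · exact ⟨0, fun h => absurd hv0 h⟩
      obtain ⟨hn', -, -⟩ := hj v hv0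
      by_cases hjk : j v = k
      · refine ⟨0, fun _ => ?_⟩
        have : 2 * j v - n = 0 := by omega
        rw [this, hbb]; simp [hjk]
      · refine ⟨2 ^ (2 * j v - n - 2), fun _ => ?_⟩
        have hge : 2 ≤ 2 * j v - n := by omega
        have h4 : (4 : ℤ) = 2 ^ 2 := by norm_num
        rw [h4, ← pow_add, Nat.add_sub_cancel' hge, hbb]
        simp [hjk]
    choose q hq using hq
    have hr : ∀ v : V n, ∃ r : ℤ, v ≠ 0 → W F 0 v = 2 ^ k * (bb v + 2 * r) := by
      intro v
      by_cases hv0 : v = 0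
      · exact ⟨0, fun h => absurd hv0 h⟩
      obtain ⟨hn', hW, hbent⟩ := hj v hv0
      by_cases hjk : j v = k
      · have hne := hbent (by omega) 0
        have hb1 : bb v = 1 := by simp [hbb, hjk]
        rcases hW 0 with h | h | h
        · exact absurd h hne
        · exact ⟨0, fun _ => by rw [h, hb1, hjk]; ring⟩
        · exact ⟨-1, fun _ => by rw [h, hb1, hjk]; ring⟩
      · have hlt : k + 1 ≤ j v := by omega
        have h2 : (2 : ℤ) ^ (j v) = 2 ^ k * (2 * 2 ^ (j v - (k + 1))) := by
          rw [← pow_succ', ← pow_add]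
          congr 1
          omega
        rcases hW 0 with h | h | h
        · exact ⟨0, fun _ => by rw [h, hbb]; simp [hjk]⟩
        · exact ⟨2 ^ (j v - (k + 1)), fun _ => by rw [h, hbb, h2]; simp [hjk]⟩
        · exact ⟨-2 ^ (j v - (k + 1)), fun _ => by rw [h, hbb, h2]; simp [hjk]⟩
    choose r hr using hr
    -- the two counts modulo four
    have hA1 : ∑ v ∈ univ.erase (0 : V n), (2 : ℤ) ^ (2 * j v - n) =
        ∑ v ∈ univ.erase (0 : V n), bb v + 4 * ∑ v ∈ univ.erase (0 : V n), q v := by
      rw [mul_sum, ← sum_add_distrib]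
      exact sum_congr rfl fun v hv => hq v (mem_erase.1 hv).1
    have hB1 : ∑ v ∈ univ.erase (0 : V n), (2 : ℤ) ^ (2 * j v - n) * chi (v ⬝ᵥ c) =
        ∑ v ∈ univ.erase (0 : V n), bb v * chi (v ⬝ᵥ c) +
          4 * ∑ v ∈ univ.erase (0 : V n), q v * chi (v ⬝ᵥ c) := by
      rw [mul_sum, ← sum_add_distrib]
      refine sum_congr rfl fun v hv => ?_
      rw [hq v (mem_erase.1 hv).1]; ring
    have hB2 : ∑ v ∈ univ.erase (0 : V n), bb v * chi (v ⬝ᵥ c) =
        ∑ v ∈ univ.erase (0 : V n), bb v -
          2 * ∑ v ∈ univ.erase (0 : V n), bb v * (if v ⬝ᵥ c = 1 then 1 else 0) := by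
      rw [mul_sum, ← sum_sub_distrib]
      refine sum_congr rfl fun v _ => ?_
      rw [chi_eq_ite]; ring
    -- the key parity
    have hkey : ∃ t : ℤ, ∑ v ∈ univ.erase (0 : V n), bb v * (if v ⬝ᵥ c = 1 then 1 else 0) = 2 * t := by
      -- the sum of `W F 0 v` over the `v` with `v·c = 1`
      have hM : ∃ M : ℤ, ∑ v : V n, (1 - chi (v ⬝ᵥ c)) * W F 0 v = 2 ^ n * M := by
        refine ⟨∑ x : V n, ((if F x = 0 then 1 else 0) - (if F x + c = 0 then 1 else 0)), ?_⟩
        unfold W
        simp only [mul_sum]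
        rw [sum_comm]
        refine sum_congr rfl fun x _ => ?_
        have h1 : ∀ v : V n, (1 - chi (v ⬝ᵥ c)) * chi (v ⬝ᵥ F x + 0 ⬝ᵥ x) =
            chi (v ⬝ᵥ F x) - chi (v ⬝ᵥ (F x + c)) := by
          intro v
          rw [zero_dotProduct, add_zero, dotProduct_add v (F x) c, chi_add]; ring
        rw [sum_congr rfl fun v _ => h1 v, sum_sub_distrib, sum_chi_dot, sum_chi_dot]
        split_ifs <;> ring
      obtain ⟨M, hM⟩ := hM
      have h2 : ∑ v : V n, (1 - chi (v ⬝ᵥ c)) * W F 0 v =
          2 * (2 ^ k * (∑ v ∈ univ.erase (0 : V n), bb v * (if v ⬝ᵥ c = 1 then 1 else 0) +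
            2 * ∑ v ∈ univ.erase (0 : V n), r v * (if v ⬝ᵥ c = 1 then 1 else 0))) := by
        rw [← add_sum_erase univ _ (mem_univ (0 : V n)), zero_dotProduct, chi_zero, sub_self,
          zero_mul, zero_add, mul_sum, ← sum_add_distrib, mul_sum, mul_sum]
        refine sum_congr rfl fun v hv => ?_
        rw [hr v (mem_erase.1 hv).1, chi_eq_ite]; ring
      rw [h2] at hM
      obtain ⟨k', rfl⟩ : ∃ k', k = k' + 2 := ⟨k - 2, by omega⟩
      have h3 : (2 : ℤ) ^ n = 2 * (2 ^ (k' + 2) * (2 * 2 ^ k')) := by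
        rw [hk]; ring
      rw [h3, mul_assoc 2, mul_assoc (2 ^ (k' + 2))] at hM
      have h4 := mul_left_cancel₀ (by positivity) (mul_left_cancel₀ (by norm_num) hM)
      refine ⟨2 ^ k' * M - ∑ v ∈ univ.erase (0 : V n), r v * (if v ⬝ᵥ c = 1 then 1 else 0), ?_⟩
      linarith
    obtain ⟨t, ht⟩ := hkey
    have h4n : ∃ z : ℤ, (2 : ℤ) ^ n = 4 * z := by
      refine ⟨2 ^ (n - 2), ?_⟩
      have h4 : (4 : ℤ) = 2 ^ 2 := by norm_num
      rw [h4, ← pow_add, Nat.add_sub_cancel' (by omega)]
    obtain ⟨z, hz⟩ := h4n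
    rw [hTb, hB1, hB2, ht, hz]
    rw [hTa, hA1, hz] at h3'
    omega
  · -- odd case: all amplitudes are minimal
    have hge : ∀ v ∈ univ.erase (0 : V n), (2 : ℤ) ≤ 2 ^ (2 * j v - n) := by
      intro v hv
      have hv0 : v ≠ 0 := (mem_erase.1 hv).1
      obtain ⟨hn', -, -⟩ := hj v hv0
      obtain ⟨k, hk⟩ := hodd
      have : 1 ≤ 2 * j v - n := by omega
      calc (2 : ℤ) = 2 ^ 1 := by norm_num
        _ ≤ 2 ^ (2 * j v - n) := pow_le_pow_right₀ (by norm_num) this
    have hcardE : ((univ.erase (0 : V n)).card : ℤ) = 2 ^ n - 1 := by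
      rw [card_erase_of_mem (mem_univ _), card_univ, card_V]
      have : 1 ≤ 2 ^ n := Nat.one_le_two_pow
      push_cast [Nat.cast_sub this]
      ring
    have hsum2 : ∑ v ∈ univ.erase (0 : V n), (2 : ℤ) ^ (2 * j v - n) =
        ∑ v ∈ univ.erase (0 : V n), 2 := by
      rw [sum_const, nsmul_eq_mul, hcardE]
      linarith
    have heq : ∀ v ∈ univ.erase (0 : V n), (2 : ℤ) = 2 ^ (2 * j v - n) :=
      (sum_eq_sum_iff_of_le hge).1 hsum2.symm
    have hfin : (T F a b : ℤ) = 2 ^ n - 2 := by
      rw [hTb, sum_congr rfl (fun v hv => by rw [← heq v hv]), ← mul_sum, hsumchi]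
      ring
    rw [hfin]
    obtain ⟨m, rfl⟩ : ∃ m, n = m + 2 := ⟨n - 2, by omega⟩
    rw [pow_add]
    omega

end Pool.Agent.Results.MP_b298ef_co.OddExclude
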